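import Mathlib

/-!
Polynomial numerical index of `C(K, X)`, complex case.
-/

namespace Pool.Agent.H50.PNI

open Topology Filter Metric

variable {X : Type} [NormedAddCommGroup X] [NormedSpace ℂ X]
variable {K : Type} [TopologicalSpace K] [CompactSpace K]

omit [NormedSpace ℂ X] in
lemma exists_norm_eq [Nonempty K] (f : C(K, X)) : ∃ t, ‖f t‖ = ‖f‖ := by
  obtain ⟨t, -, ht⟩ := isCompact_univ.exists_isMaxOn (Set.univ_nonempty (α := K))
    f.continuous.norm.continuousOn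
  refine ⟨t, le_antisymm (f.norm_coe_le_norm t) ?_⟩
  rw [ContinuousMap.norm_le _ (norm_nonneg _)]
  intro s
  exact ht (Set.mem_univ s)

/-- a state of `C(K, X)` at `f` is dominated at a given `g` by a state of the form `φ ∘ δ_t`. -/
lemma exists_point_state [Nonempty K] (f g : C(K, X)) (F : C(K, X) →L[ℂ] ℂ) (hf : ‖f‖ = 1) (hF : ‖F‖ = 1)
    (hFf : F f = 1) : ∃ (t : K) (φ : X →L[ℂ] ℂ), ‖φ‖ = 1 ∧ ‖f t‖ = 1 ∧ φ (f t) = 1 ∧
      ‖F g‖ ≤ ‖φ (g t)‖ := by
  -- rotate `g`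
  obtain ⟨u, hu, hug⟩ : ∃ u : ℂ, ‖u‖ = 1 ∧ u * F g = ‖F g‖ := by
    by_cases h : F g = 0
    · exact ⟨1, norm_one, by simp [h]⟩
    · refine ⟨(starRingEnd ℂ) (F g) / ‖F g‖, ?_, ?_⟩
      · rw [norm_div, RCLike.norm_conj, Complex.norm_real, norm_norm, div_self (norm_ne_zero_iff.2 h)]
      · rw [div_mul_eq_mul_div, mul_comm, Complex.mul_conj, Complex.normSq_eq_norm_sq]
        push_cast
        have : (‖F g‖ : ℂ) ≠ 0 := by exact_mod_cast norm_ne_zero_iff.2 h
        field_simp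
  set g' : C(K, X) := u • g with hg'
  have hFg' : F g' = ‖F g‖ := by rw [hg', map_smul, smul_eq_mul, hug]
  have hg'n : ‖g'‖ = ‖g‖ := by rw [hg', norm_smul, hu, one_mul]
  -- approximate maximisers
  have key : ∀ n : ℕ, ∃ (t : K) (φ : X →L[ℂ] ℂ), ‖φ‖ ≤ 1 ∧ 1 - ‖g‖ / (n + 1) ≤ (φ (f t)).re ∧
      ‖F g‖ ≤ (φ (g' t)).re := by
    intro n
    set α : ℝ := 1 / ((n : ℝ) + 1) with hα
    have hα0 : 0 < α := by positivity
    obtain ⟨t, ht⟩ := exists_norm_eq (f + (α : ℂ) • g')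
    obtain ⟨φ, hφ, hφt⟩ := exists_dual_vector'' ℂ ((f + (α : ℂ) • g') t)
    have h1 : 1 + α * ‖F g‖ ≤ ‖(f + (α : ℂ) • g') t‖ := by
      rw [ht]
      have h2 : F (f + (α : ℂ) • g') = ((1 + α * ‖F g‖ : ℝ) : ℂ) := by
        rw [map_add, map_smul, hFf, hFg']; push_cast; rw [smul_eq_mul]
      have h3 : ‖F (f + (α : ℂ) • g')‖ = 1 + α * ‖F g‖ := by
        rw [h2, Complex.norm_real, Real.norm_of_nonneg (by positivity)]
      calc 1 + α * ‖F g‖ = ‖F (f + (α : ℂ) • g')‖ := h3.symm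
        _ ≤ ‖F‖ * ‖f + (α : ℂ) • g'‖ := F.le_opNorm _
        _ = _ := by rw [hF, one_mul]
    have h4 : (φ (f t)).re + α * (φ (g' t)).re = ‖(f + (α : ℂ) • g') t‖ := by
      have h5 : φ ((f + (α : ℂ) • g') t) = φ (f t) + α * φ (g' t) := by
        rw [ContinuousMap.add_apply, ContinuousMap.smul_apply, map_add, map_smul, smul_eq_mul]
      have h6 := congrArg Complex.re hφt
      rw [h5] at h6
      simpa using h6
    have h7 : (φ (f t)).re ≤ 1 := by
      calc (φ (f t)).re ≤ ‖φ (f t)‖ := Complex.re_le_norm _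
        _ ≤ ‖φ‖ * ‖f t‖ := φ.le_opNorm _
        _ ≤ 1 * 1 := by
          gcongr
          exact (f.norm_coe_le_norm t).trans hf.le
        _ = 1 := one_mul 1
    have h8 : (φ (g' t)).re ≤ ‖g‖ := by
      calc (φ (g' t)).re ≤ ‖φ (g' t)‖ := Complex.re_le_norm _
        _ ≤ ‖φ‖ * ‖g' t‖ := φ.le_opNorm _
        _ ≤ 1 * ‖g‖ := by
          gcongr
          exact (g'.norm_coe_le_norm t).trans hg'n.le
        _ = ‖g‖ := one_mul _
    have h9 : ‖F g‖ ≤ (φ (g' t)).re := by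
      have : α * ‖F g‖ ≤ α * (φ (g' t)).re := by linarith
      exact le_of_mul_le_mul_left this hα0
    refine ⟨t, φ, hφ, ?_, h9⟩
    have h10 : 0 ≤ α * ‖F g‖ := by positivity
    have h11 : α * (φ (g' t)).re ≤ α * ‖g‖ := by gcongr
    have h12 : ‖g‖ / ((n : ℝ) + 1) = α * ‖g‖ := by rw [hα]; ring
    rw [h12]
    linarith
  choose t φ hφ h1 h2 using key
  -- compactness
  let Bd : Set (WeakDual ℂ X) := WeakDual.toStrongDual ⁻¹' closedBall (0 : StrongDual ℂ X) 1
  have hBd : IsCompact Bd := WeakDual.isCompact_closedBall (0 : StrongDual ℂ X) 1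
  have hcomp : IsCompact ((Set.univ : Set K) ×ˢ Bd) := isCompact_univ.prod hBd
  let U : Ultrafilter ℕ := Filter.hyperfilter ℕ
  have hU : (U : Filter ℕ) ≤ atTop := Nat.hyperfilter_le_atTop
  let s : ℕ → K × WeakDual ℂ X := fun n => (t n, StrongDual.toWeakDual (φ n))
  have hs : ∀ n, s n ∈ (Set.univ : Set K) ×ˢ Bd := by
    intro n
    refine ⟨Set.mem_univ _, ?_⟩
    simp only [s, Bd, Set.mem_preimage, mem_closedBall, dist_zero_right]
    exact hφ n
  obtain ⟨⟨t0, ψ⟩, ⟨-, hψ⟩, hlim⟩ := hcomp.ultrafilter_le_nhds (U.map s) (by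
    rw [Ultrafilter.coe_map, Filter.le_principal_iff, Filter.mem_map]
    exact Filter.univ_mem' hs)
  have hlim' : Tendsto s U (𝓝 (t0, ψ)) := hlim
  rw [nhds_prod_eq] at hlim'
  have ht : Tendsto t U (𝓝 t0) := hlim'.fst
  have hψl : Tendsto (fun n => StrongDual.toWeakDual (φ n)) U (𝓝 ψ) := hlim'.snd
  have heval : ∀ x : X, Tendsto (fun n => φ n x) U (𝓝 (ψ x)) := by
    intro x
    exact ((WeakDual.eval_continuous x).tendsto ψ).comp hψl
  have hjoint : ∀ h : C(K, X), Tendsto (fun n => φ n (h (t n))) U (𝓝 (ψ (h t0))) := by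
    intro h
    have e1 : Tendsto (fun n => φ n (h (t n)) - φ n (h t0)) U (𝓝 0) := by
      have e2 : Tendsto (fun n => ‖h (t n) - h t0‖) U (𝓝 0) := by
        have := ((h.continuous.tendsto t0).comp ht)
        rw [tendsto_iff_norm_sub_tendsto_zero] at this
        exact this
      refine squeeze_zero_norm (fun n => ?_) e2
      rw [← map_sub]
      calc ‖φ n (h (t n) - h t0)‖ ≤ ‖φ n‖ * ‖h (t n) - h t0‖ := (φ n).le_opNorm _
        _ ≤ 1 * ‖h (t n) - h t0‖ := by gcongr; exact hφ n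
        _ = _ := one_mul _
    have e3 := e1.add (heval (h t0))
    simpa using e3
  set φ0 : X →L[ℂ] ℂ := WeakDual.toStrongDual ψ with hφ0
  have hφ0n : ‖φ0‖ ≤ 1 := by
    have := hψ
    simp only [Bd, Set.mem_preimage, mem_closedBall, dist_zero_right] at this
    exact this
  have r1 : 1 ≤ (φ0 (f t0)).re := by
    have e1 : Tendsto (fun n => (φ n (f (t n))).re) U (𝓝 ((ψ (f t0)).re)) :=
      (Complex.continuous_re.tendsto _).comp (hjoint f)
    have e2 : Tendsto (fun n : ℕ => 1 - ‖g‖ / ((n : ℝ) + 1)) U (𝓝 (1 - 0)) := by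
      apply Tendsto.sub tendsto_const_nhds
      have e3 : Tendsto (fun n : ℕ => ‖g‖ / ((n : ℝ) + 1)) atTop (𝓝 0) := by
        apply Tendsto.div_atTop tendsto_const_nhds
        exact tendsto_atTop_add_const_right _ _ tendsto_natCast_atTop_atTop
      exact e3.mono_left hU
    rw [sub_zero] at e2
    exact le_of_tendsto_of_tendsto' e2 e1 h1
  have r2 : ‖F g‖ ≤ (φ0 (g' t0)).re := by
    have e1 : Tendsto (fun n => (φ n (g' (t n))).re) U (𝓝 ((ψ (g' t0)).re)) :=
      (Complex.continuous_re.tendsto _).comp (hjoint g')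
    exact ge_of_tendsto' e1 h2
  have hft : ‖f t0‖ ≤ 1 := (f.norm_coe_le_norm t0).trans hf.le
  have r3 : ‖φ0 (f t0)‖ ≤ ‖φ0‖ * ‖f t0‖ := φ0.le_opNorm _
  have r4 : (φ0 (f t0)).re ≤ ‖φ0 (f t0)‖ := Complex.re_le_norm _
  have r5 : 1 ≤ ‖φ0‖ * ‖f t0‖ := by linarith
  have r6 : ‖φ0‖ = 1 := by
    refine le_antisymm hφ0n ?_
    calc 1 ≤ ‖φ0‖ * ‖f t0‖ := r5
      _ ≤ ‖φ0‖ * 1 := by gcongr
      _ = _ := mul_one _
  have r7 : ‖f t0‖ = 1 := by
    refine le_antisymm hft ?_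
    rw [r6, one_mul] at r5
    exact r5
  have r8 : φ0 (f t0) = 1 := by
    have hn : ‖φ0 (f t0)‖ ≤ 1 := by rw [r6, r7] at r3; linarith
    have hre : (φ0 (f t0)).re = 1 := le_antisymm (r4.trans hn) r1
    have him : (φ0 (f t0)).im = 0 := by
      have hsq : (φ0 (f t0)).re ^ 2 + (φ0 (f t0)).im ^ 2 ≤ 1 := by
        have := Complex.sq_norm (φ0 (f t0))
        rw [Complex.normSq_apply] at this
        nlinarith [norm_nonneg (φ0 (f t0))]
      rw [hre] at hsq
      nlinarith [sq_nonneg (φ0 (f t0)).im]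
    exact Complex.ext hre him
  refine ⟨t0, φ0, r6, r7, r8, ?_⟩
  calc ‖F g‖ ≤ (φ0 (g' t0)).re := r2
    _ ≤ ‖φ0 (g' t0)‖ := Complex.re_le_norm _
    _ = ‖φ0 (g t0)‖ := by
      rw [hg', ContinuousMap.smul_apply, map_smul, norm_smul, hu, one_mul]

/-- lifting a vector of `X` into `C(K, X)`: `x ↦ (1 - φ) g(x) f + φ x`. -/
noncomputable def lift (f : C(K, X)) (φ : C(K, ℝ)) (g : X →L[ℂ] ℂ) : X →L[ℂ] C(K, X) :=
  LinearMap.mkContinuous
    { toFun := fun x => ⟨fun t => ((1 - φ t : ℝ) : ℂ) • (g x • f t) + ((φ t : ℝ) : ℂ) • x, by fun_prop⟩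
      map_add' := fun x y => by
        ext t
        simp only [ContinuousMap.coe_mk, ContinuousMap.add_apply, map_add, add_smul, smul_add]
        abel
      map_smul' := fun c x => by
        ext t
        simp only [ContinuousMap.coe_mk, ContinuousMap.smul_apply, map_smul, RingHom.id_apply,
          smul_add, smul_smul, smul_eq_mul]
        congr 2
        · ring
        · ring }
    ((1 + ‖φ‖) * (‖g‖ * ‖f‖) + ‖φ‖) (fun x => by
      rw [ContinuousMap.norm_le _ (by positivity)]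
      intro t
      change ‖((1 - φ t : ℝ) : ℂ) • (g x • f t) + ((φ t : ℝ) : ℂ) • x‖ ≤ _
      refine (norm_add_le _ _).trans ?_
      rw [norm_smul, norm_smul, norm_smul, Complex.norm_real, Complex.norm_real]
      have h1 : ‖φ t‖ ≤ ‖φ‖ := φ.norm_coe_le_norm t
      have h2 : ‖1 - φ t‖ ≤ 1 + ‖φ‖ := by
        refine (norm_sub_le _ _).trans ?_
        rw [norm_one]; linarith
      have h3 : ‖g x‖ ≤ ‖g‖ * ‖x‖ := g.le_opNorm x
      have h4 : ‖f t‖ ≤ ‖f‖ := f.norm_coe_le_norm t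
      calc ‖1 - φ t‖ * (‖g x‖ * ‖f t‖) + ‖φ t‖ * ‖x‖
          ≤ (1 + ‖φ‖) * ((‖g‖ * ‖x‖) * ‖f‖) + ‖φ‖ * ‖x‖ := by gcongr
        _ = _ := by ring)

lemma lift_apply (f : C(K, X)) (φ : C(K, ℝ)) (g : X →L[ℂ] ℂ) (x : X) (t : K) :
    lift f φ g x t = ((1 - φ t : ℝ) : ℂ) • (g x • f t) + ((φ t : ℝ) : ℂ) • x := rfl

lemma norm_lift_apply_le (f : C(K, X)) (φ : C(K, ℝ)) (g : X →L[ℂ] ℂ) (hφ : ∀ t, 0 ≤ φ t ∧ φ t ≤ 1)
    (hf : ‖f‖ ≤ 1) (hg : ‖g‖ ≤ 1) {x : X} (hx : ‖x‖ ≤ 1) : ‖lift f φ g x‖ ≤ 1 := by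
  rw [ContinuousMap.norm_le _ zero_le_one]
  intro t
  rw [lift_apply]
  refine (norm_add_le _ _).trans ?_
  rw [norm_smul, norm_smul, norm_smul, Complex.norm_real, Complex.norm_real,
    Real.norm_of_nonneg (by linarith [(hφ t).2]), Real.norm_of_nonneg (hφ t).1]
  have h3 : ‖g x‖ ≤ 1 := by
    calc ‖g x‖ ≤ ‖g‖ * ‖x‖ := g.le_opNorm x
      _ ≤ 1 * 1 := by gcongr
      _ = 1 := one_mul 1
  have h4 : ‖f t‖ ≤ 1 := (f.norm_coe_le_norm t).trans hf
  have h5 : ‖g x‖ * ‖f t‖ ≤ 1 * 1 := by gcongr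
  have h6 := (hφ t).1
  have h7 := (hφ t).2
  nlinarith

/-- evaluation at a point -/
noncomputable def ev (t : K) : C(K, X) →L[ℂ] X :=
  LinearMap.mkContinuous
    { toFun := fun f => f t
      map_add' := fun _ _ => rfl
      map_smul' := fun _ _ => rfl } 1 (fun f => by
        rw [one_mul]; exact f.norm_coe_le_norm t)

lemma ev_apply (t : K) (f : C(K, X)) : ev t f = f t := rfl

lemma norm_ev_le (t : K) : ‖(ev t : C(K, X) →L[ℂ] X)‖ ≤ 1 := LinearMap.mkContinuous_norm_le _ zero_le_one _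

/-- bump function at a point -/
lemma exists_bump [T2Space K] (t0 : K) {V : Set K} (hV : IsOpen V) (ht : t0 ∈ V) :
    ∃ φ : C(K, ℝ), φ t0 = 1 ∧ (∀ t, 0 ≤ φ t ∧ φ t ≤ 1) ∧ ∀ t, t ∉ V → φ t = 0 := by
  obtain ⟨φ, h0, h1, h2⟩ := exists_continuous_zero_one_of_isClosed (s := Vᶜ) (t := {t0})
    hV.isClosed_compl isClosed_singleton (by
      rw [Set.disjoint_singleton_right]
      exact fun h => h ht)
  exact ⟨φ, h1 rfl, fun t => ⟨(h2 t).1, (h2 t).2⟩, fun t ht => h0 ht⟩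

/-- approximate norm attainment of a polynomial at a function of norm one at the point. -/
lemma exists_unit_at [T2Space K] [Nontrivial X] {k : ℕ} (A : ContinuousMultilinearMap ℂ (fun _ : Fin k => C(K, X)) C(K, X))
    (y : C(K, X)) (hy : ‖y‖ ≤ 1) (t0 : K) {ε : ℝ} (hε : 0 < ε) :
    ∃ f : C(K, X), ‖f‖ ≤ 1 ∧ ‖f t0‖ = 1 ∧ ‖A (fun _ => y) t0‖ - ε < ‖A (fun _ => f) t0‖ := by
  -- continuity of the polynomial
  have hcont : Continuous fun f : C(K, X) => ‖A (fun _ => f) t0‖ := by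
    have h1 : Continuous fun f : C(K, X) => A (fun _ => f) := A.cont.comp (continuous_pi fun _ => continuous_id)
    have h2 : Continuous fun f : C(K, X) => f t0 := continuous_eval_const t0
    exact (h2.comp h1).norm
  have hnhd : ∀ᶠ f in 𝓝 y, ‖A (fun _ => y) t0‖ - ε < ‖A (fun _ => f) t0‖ :=
    (hcont.tendsto y).eventually (lt_mem_nhds (by linarith))
  obtain ⟨δ, hδ, hball⟩ := Metric.eventually_nhds_iff.1 hnhd
  -- the unit vector
  obtain ⟨e, he, hye⟩ : ∃ e : X, ‖e‖ = 1 ∧ y t0 = ((‖y t0‖ : ℝ) : ℂ) • e := by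
    by_cases h : y t0 = 0
    · obtain ⟨x, hx⟩ := exists_ne (0 : X)
      refine ⟨((‖x‖ : ℝ) : ℂ)⁻¹ • x, ?_, by simp [h]⟩
      rw [norm_smul, norm_inv, Complex.norm_real, norm_norm, inv_mul_cancel₀ (norm_ne_zero_iff.2 hx)]
    · refine ⟨((‖y t0‖ : ℝ) : ℂ)⁻¹ • y t0, ?_, ?_⟩
      · rw [norm_smul, norm_inv, Complex.norm_real, norm_norm, inv_mul_cancel₀ (norm_ne_zero_iff.2 h)]
      · rw [smul_smul, mul_inv_cancel₀, one_smul]
        exact_mod_cast norm_ne_zero_iff.2 h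
  have hlam : ‖y t0‖ ≤ 1 := (y.norm_coe_le_norm t0).trans hy
  obtain ⟨φ, hφ1, hφ2, hφ3⟩ := exists_bump t0 (V := {t | ‖y t - y t0‖ < δ / 2})
    (isOpen_lt (by fun_prop) continuous_const) (by simp [hδ])
  -- the family
  let h0 : C(K, X) := ⟨fun t => ((1 - φ t : ℝ) : ℂ) • y t, by fun_prop⟩
  let h1 : C(K, X) := ⟨fun t => ((φ t : ℝ) : ℂ) • e, by fun_prop⟩
  let fz : ℂ → C(K, X) := fun ζ => h0 + ζ • h1
  have hfz : ∀ ζ t, fz ζ t = ((1 - φ t : ℝ) : ℂ) • y t + ζ • ((φ t : ℝ) : ℂ) • e := fun ζ t => rfl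
  have hfz1 : ∀ ζ : ℂ, ‖ζ‖ = 1 → ‖fz ζ‖ ≤ 1 := by
    intro ζ hζ
    rw [ContinuousMap.norm_le _ zero_le_one]
    intro t
    rw [hfz]
    refine (norm_add_le _ _).trans ?_
    rw [norm_smul, norm_smul, norm_smul, Complex.norm_real, Complex.norm_real, hζ, he,
      Real.norm_of_nonneg (by linarith [(hφ2 t).2]), Real.norm_of_nonneg (hφ2 t).1]
    have h4 : ‖y t‖ ≤ 1 := (y.norm_coe_le_norm t).trans hy
    have h6 := (hφ2 t).1
    have h7 := (hφ2 t).2
    nlinarith
  have hfz2 : ∀ ζ : ℂ, ‖ζ‖ = 1 → ‖fz ζ t0‖ = 1 := by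
    intro ζ hζ
    rw [hfz, hφ1]
    simp [norm_smul, hζ, he]
  have hclose : dist (fz ((‖y t0‖ : ℝ) : ℂ)) y < δ := by
    rw [dist_eq_norm]
    refine lt_of_le_of_lt ?_ (half_lt_self hδ)
    rw [ContinuousMap.norm_le _ (by positivity)]
    intro t
    rw [ContinuousMap.sub_apply, hfz]
    have e1 : ((1 - φ t : ℝ) : ℂ) • y t + ((‖y t0‖ : ℝ) : ℂ) • ((φ t : ℝ) : ℂ) • e - y t =
        ((φ t : ℝ) : ℂ) • (y t0 - y t) := by
      rw [smul_comm (((‖y t0‖ : ℝ) : ℂ)) ((φ t : ℝ) : ℂ) e, ← hye]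
      push_cast
      rw [sub_smul, one_smul, smul_sub]
      abel
    rw [e1, norm_smul, Complex.norm_real, Real.norm_of_nonneg (hφ2 t).1]
    by_cases hV : ‖y t - y t0‖ < δ / 2
    · rw [norm_sub_rev]
      have h6 := (hφ2 t).1
      have h7 := (hφ2 t).2
      nlinarith [norm_nonneg (y t - y t0)]
    · rw [hφ3 t hV, zero_mul]
      positivity
  -- the maximum principle
  let q : ℂ → X := fun ζ => A (fun _ => fz ζ) t0
  have hq : Differentiable ℂ q := by
    have d1 : Differentiable ℂ fz := by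
      intro ζ
      exact (differentiableAt_const _).add (differentiableAt_id.smul_const h1)
    have d2 : Differentiable ℂ fun ζ => A (fun _ => fz ζ) := by
      have d3 : Differentiable ℂ (fun ζ => (fun _ : Fin k => fz ζ)) := differentiable_pi.2 fun _ => d1
      exact fun ζ => (A.hasStrictFDerivAt _).hasFDerivAt.differentiableAt.comp ζ (d3 ζ)
    have d4 : Differentiable ℂ fun f : C(K, X) => (ev t0 : C(K, X) →L[ℂ] X) f :=
      ContinuousLinearMap.differentiable _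
    exact d4.comp d2
  obtain ⟨ζ, hζ, hmax⟩ := Complex.exists_mem_frontier_isMaxOn_norm (f := q) (U := ball (0 : ℂ) 1)
    isBounded_ball ⟨0, by simp⟩ hq.diffContOnCl
  have hζ1 : ‖ζ‖ = 1 := by
    rw [frontier_ball (0 : ℂ) one_ne_zero, mem_sphere_zero_iff_norm] at hζ
    exact hζ
  refine ⟨fz ζ, hfz1 ζ hζ1, hfz2 ζ hζ1, ?_⟩
  have hin : ((‖y t0‖ : ℝ) : ℂ) ∈ closure (ball (0 : ℂ) 1) := by
    rw [closure_ball (0 : ℂ) one_ne_zero, mem_closedBall_zero_iff, Complex.norm_real, norm_norm]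
    exact hlam
  have h8 := hmax hin
  simp only [Set.mem_ofPred_eq, Function.comp_apply] at h8
  exact lt_of_lt_of_le (hball hclose) h8

/-- composition with a continuous multilinear map. -/
noncomputable def compMul {k : ℕ} (A : ContinuousMultilinearMap ℂ (fun _ : Fin k => X) X) :
    ContinuousMultilinearMap ℂ (fun _ : Fin k => C(K, X)) C(K, X) :=
  MultilinearMap.mkContinuous
    { toFun := fun f => ⟨fun t => A (fun i => f i t), A.cont.comp (continuous_pi fun i => (f i).continuous)⟩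
      map_update_add' := by
        intro _ f i x y
        ext t
        simp only [ContinuousMap.coe_mk, ContinuousMap.add_apply]
        have h : ∀ z : C(K, X), (fun j => (Function.update f i z) j t) = Function.update (fun j => f j t) i (z t) := by
          intro z
          funext j
          by_cases hj : j = i
          · subst hj; simp
          · simp [hj]
        rw [h, h, h, ContinuousMap.add_apply, A.map_update_add]
      map_update_smul' := by
        intro _ f i c x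
        ext t
        simp only [ContinuousMap.coe_mk, ContinuousMap.smul_apply]
        have h : ∀ z : C(K, X), (fun j => (Function.update f i z) j t) = Function.update (fun j => f j t) i (z t) := by
          intro z
          funext j
          by_cases hj : j = i
          · subst hj; simp
          · simp [hj]
        rw [h, h, ContinuousMap.smul_apply, A.map_update_smul] }
    ‖A‖ (fun f => by
      rw [ContinuousMap.norm_le _ (by positivity)]
      intro t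
      change ‖A (fun i => f i t)‖ ≤ _
      refine (A.le_opNorm _).trans ?_
      gcongr with i
      exact (f i).norm_coe_le_norm t)

lemma compMul_apply {k : ℕ} (A : ContinuousMultilinearMap ℂ (fun _ : Fin k => X) X)
    (f : Fin k → C(K, X)) (t : K) : (compMul A : ContinuousMultilinearMap ℂ (fun _ : Fin k => C(K, X)) C(K, X)) f t = A (fun i => f i t) := rfl

end Pool.Agent.H50.PNI
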